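import Pool.Agent.W4.QD.Stms

set_option autoImplicit false

namespace Pool.Agent.W924.QD

open NumberField Finset Polynomial Pool.Agent.W4.QD

section
variable {K : Type} [Field K] [NumberField K] {θ : 𝓞 K}

theorem indep (hG : Gen θ) {g : ℤ[X]} (hg : g.natDegree < Module.finrank ℚ K)
    (h : aeval θ g = 0) : g = 0 := by
  by_contra hne
  have h1 : aeval (θ : K) (g.map (Int.castRingHom ℚ)) = 0 := by
    have e : (g.map (Int.castRingHom ℚ)) = g.map (algebraMap ℤ ℚ) := rfl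
    rw [e, aeval_map_algebraMap]
    have := aeval_algebraMap_apply K θ g
    rw [h, map_zero] at this
    exact this
  have h2 : g.map (Int.castRingHom ℚ) ≠ 0 := by
    rw [Ne, Polynomial.map_eq_zero_iff (Int.cast_injective (α := ℚ))]
    exact hne
  have h3 : IntermediateField.adjoin ℚ {(θ : K)} = ⊤ :=
    IntermediateField.adjoin_eq_top_of_algebra _ _ hG
  have h4 := (Field.primitive_element_iff_minpoly_natDegree_eq ℚ (θ : K)).1 h3
  have h5 := Polynomial.natDegree_le_of_dvd (minpoly.dvd ℚ (θ : K) h1) h2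
  have h6 : (g.map (Int.castRingHom ℚ)).natDegree ≤ g.natDegree := natDegree_map_le
  omega

theorem z0 (hG : Gen θ) (hd : 3 ≤ Module.finrank ℚ K) {n a b : ℤ} (hn : n ≠ 0) {g : ℤ[X]}
    (hg : g.natDegree < Module.finrank ℚ K)
    (h : (n : 𝓞 K) * aeval θ g = (a : 𝓞 K) + b * θ) :
    n * g.coeff 0 = a ∧ n * g.coeff 1 = b ∧ aeval θ g = (g.coeff 0 : 𝓞 K) + g.coeff 1 * θ := by
  have h1 : aeval θ (C n * g - (C a + C b * X)) = 0 := by
    simp only [map_sub, map_mul, map_add, aeval_C, aeval_X, algebraMap_int_eq]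
    simp only [eq_intCast]
    rw [h, sub_self]
  have h2 : (C n * g - (C a + C b * X)).natDegree < Module.finrank ℚ K := by
    refine lt_of_le_of_lt (natDegree_sub_le _ _) (max_lt ?_ ?_)
    · exact lt_of_le_of_lt (natDegree_C_mul_le _ _) hg
    · have : (C a + C b * X : ℤ[X]).natDegree ≤ 1 := by
        rw [add_comm]
        exact natDegree_linear_le
      omega
  have h3 := sub_eq_zero.1 (indep hG h2 h1)
  have h4 : ∀ j, n * g.coeff j = (C a + C b * X : ℤ[X]).coeff j := by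
    intro j
    rw [← h3, coeff_C_mul]
  have e0 := h4 0
  have e1 := h4 1
  simp only [coeff_add, coeff_C_zero, mul_coeff_zero, coeff_X_zero, mul_zero, add_zero] at e0
  simp only [coeff_add, coeff_C_mul, coeff_X_one, mul_one, coeff_C_of_ne_zero one_ne_zero,
    zero_add] at e1
  refine ⟨e0, e1, ?_⟩
  have h5 : g = C (g.coeff 0) + C (g.coeff 1) * X := by
    ext j
    rcases j with _ | _ | j
    · simp
    · rw [coeff_add, coeff_C_mul, coeff_X, coeff_C]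
      simp
    · have := h4 (j + 2)
      have e : (C a + C b * X : ℤ[X]).coeff (j + 2) = 0 := by
        rw [coeff_add, coeff_C_mul, coeff_X, coeff_C]
        simp
      rw [e] at this
      have h6 : g.coeff (j + 2) = 0 := (mul_eq_zero.1 this).resolve_left hn
      rw [h6, coeff_add, coeff_C_mul, coeff_X, coeff_C]
      simp
  conv_lhs => rw [h5]
  simp only [map_add, map_mul, aeval_C, aeval_X, algebraMap_int_eq]
  simp only [eq_intCast]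

theorem z1 (hG : Gen θ) (hd : 3 ≤ Module.finrank ℚ K) {i : ℕ} (hi : IdxG θ i) {η : 𝓞 K}
    {n a b : ℤ} (hn : n ≠ 0) (h : (n : 𝓞 K) * η = (a : 𝓞 K) + b * θ) :
    ∃ A B : ℤ, (i : 𝓞 K) * η = (A : 𝓞 K) + B * θ := by
  obtain ⟨g, hg, hg'⟩ := hi.2 η
  have h1 : (n : 𝓞 K) * aeval θ g = ((i * a : ℤ) : 𝓞 K) + ((i * b : ℤ) : 𝓞 K) * θ := by
    rw [← hg']
    push_cast
    linear_combination (i : 𝓞 K) * h
  obtain ⟨_, _, h2⟩ := z0 hG hd hn hg h1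
  exact ⟨_, _, hg'.trans h2⟩

theorem z2 (hG : Gen θ) (hd : 3 ≤ Module.finrank ℚ K) {i : ℕ} (hi : IdxG θ i) {p : ℕ}
    (hp : p.Prime) (hpi : ¬ p ∣ i) {η : 𝓞 K} {a b : ℤ}
    (h : (a : 𝓞 K) + b * θ = (p : 𝓞 K) * η) :
    ∃ A B : ℤ, η = (A : 𝓞 K) + B * θ := by
  obtain ⟨g, hg, hg'⟩ := hi.2 η
  have hp0 : (p : ℤ) ≠ 0 := by exact_mod_cast hp.ne_zero
  have hpp : Prime (p : ℤ) := Nat.prime_iff_prime_int.1 hp
  have h1 : ((p : ℤ) : 𝓞 K) * aeval θ g = ((i * a : ℤ) : 𝓞 K) + ((i * b : ℤ) : 𝓞 K) * θ := by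
    rw [← hg']
    push_cast
    linear_combination -(i : 𝓞 K) * h
  obtain ⟨h2, h3, _⟩ := z0 hG hd hp0 hg h1
  have hpi' : ¬ (p : ℤ) ∣ (i : ℤ) := fun h => hpi (Int.natCast_dvd_natCast.1 h)
  obtain ⟨A, hA⟩ := (hpp.dvd_mul.1 (Dvd.intro _ h2)).resolve_left hpi'
  obtain ⟨B, hB⟩ := (hpp.dvd_mul.1 (Dvd.intro _ h3)).resolve_left hpi'
  refine ⟨A, B, ?_⟩
  have hpK : (p : 𝓞 K) ≠ 0 := by exact_mod_cast hp.ne_zero
  apply mul_left_cancel₀ hpK
  rw [← h, hA, hB]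
  push_cast
  ring

/-- `x` divides its norm. -/
theorem dvd_norm (x : 𝓞 K) : x ∣ ((Algebra.norm ℤ x : ℤ) : 𝓞 K) := by
  have h1 := Ideal.absNorm_mem (Ideal.span {x})
  rw [Ideal.mem_span_singleton, Ideal.absNorm_span_singleton] at h1
  rcases Int.natAbs_eq (Algebra.norm ℤ x) with h2 | h2
  · rw [h2, Int.cast_natCast]
    exact h1
  · rw [h2, Int.cast_neg, Int.cast_natCast]
    exact (dvd_neg).2 h1

/-- cancel a factor whose norm is prime to `p`. -/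
theorem cancel {p : ℕ} (hp : p.Prime) {x y : 𝓞 K} (hx : ¬ (p : ℤ) ∣ Algebra.norm ℤ x)
    (h : (p : 𝓞 K) ∣ x * y) : (p : 𝓞 K) ∣ y := by
  obtain ⟨x', hx'⟩ := dvd_norm x
  have hpp : Prime (p : ℤ) := Nat.prime_iff_prime_int.1 hp
  obtain ⟨u, v, huv⟩ := (hpp.irreducible.coprime_iff_not_dvd.2 hx : IsCoprime _ _)
  obtain ⟨z, hz⟩ := h
  have h1 : ((u * p + v * Algebra.norm ℤ x : ℤ) : 𝓞 K) = 1 := by rw [huv]; norm_num
  push_cast at h1
  refine ⟨u * y + v * x' * z, ?_⟩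
  have : y = (u * (p : 𝓞 K) + v * ((Algebra.norm ℤ x : ℤ) : 𝓞 K)) * y := by rw [h1, one_mul]
  calc y = (u * (p : 𝓞 K) + v * ((Algebra.norm ℤ x : ℤ) : 𝓞 K)) * y := this
    _ = (u * (p : 𝓞 K) + v * (x * x')) * y := by rw [hx']
    _ = u * (p : 𝓞 K) * y + v * x' * (x * y) := by ring
    _ = u * (p : 𝓞 K) * y + v * x' * ((p : 𝓞 K) * z) := by rw [hz]
    _ = (p : 𝓞 K) * (u * y + v * x' * z) := by ring

/-- the norm of an integer prime to `p`. -/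
theorem norm_nat {p m : ℕ} (hp : p.Prime) (hm : ¬ p ∣ m) :
    ¬ (p : ℤ) ∣ Algebra.norm ℤ (m : 𝓞 K) := by
  have h1 : Algebra.norm ℤ (m : 𝓞 K) = (m : ℤ) ^ Module.finrank ℤ (𝓞 K) := by
    have := Algebra.norm_algebraMap (R := ℤ) (S := 𝓞 K) (m : ℤ)
    simpa using this
  rw [h1]
  intro h
  have h2 := (Nat.prime_iff_prime_int.1 hp).dvd_of_dvd_pow h
  exact hm (Int.natCast_dvd_natCast.1 h2)

theorem step (hG : Gen θ) (hd : 3 ≤ Module.finrank ℚ K) {i : ℕ} (hi : IdxG θ i) {p : ℕ}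
    (hp : p.Prime) (hpi : ¬ p ∣ i) {τ δ0 δ1 α : 𝓞 K} {k : ℕ} {ν : ℤ} (h0 : OnC θ τ k δ0)
    (h1 : OnC θ τ k δ1) (hα : (ν : 𝓞 K) * δ1 = δ0 + p * α) :
    ∃ A B : ℤ, (p : 𝓞 K) ∣ ((k : 𝓞 K) * i * τ * δ0 ^ (k - 1)) * α - ((A : 𝓞 K) + B * θ) := by
  obtain ⟨n0, a0, b0, hn0, h0⟩ := h0
  obtain ⟨n1, a1, b1, hn1, h1⟩ := h1
  obtain ⟨A0, B0, e0⟩ := z1 hG hd hi hn0 h0
  obtain ⟨A1, B1, e1⟩ := z1 hG hd hi hn1 h1
  obtain ⟨c, hc⟩ := Polynomial.powAddExpansion δ0 ((p : 𝓞 K) * α) k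
  have e2 : (i : 𝓞 K) * (τ * (δ0 + p * α) ^ k) =
      (ν : 𝓞 K) ^ k * ((A1 : 𝓞 K) + B1 * θ) := by
    rw [← hα, ← e1, mul_pow]
    ring
  have e3 : ((ν ^ k * A1 - A0 : ℤ) : 𝓞 K) + ((ν ^ k * B1 - B0 : ℤ) : 𝓞 K) * θ =
      (p : 𝓞 K) * ((k : 𝓞 K) * i * τ * δ0 ^ (k - 1) * α + i * τ * c * p * α ^ 2) := by
    push_cast
    rw [hc] at e2
    linear_combination -e2 + e0
  obtain ⟨A, B, e4⟩ := z2 hG hd hi hp hpi e3
  refine ⟨A, B, -(i * τ * c * α ^ 2), ?_⟩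
  rw [← e4]
  ring

theorem inv1 {p : ℕ} (hp : p.Prime) {μ : ℤ} (hμ : ¬ (p : ℤ) ∣ μ) {δ0 δ1 : 𝓞 K}
    (h : (p : 𝓞 K) ∣ δ1 - μ * δ0) :
    ∃ (ν : ℤ) (α : 𝓞 K), ¬ (p : ℤ) ∣ ν ∧ (ν : 𝓞 K) * δ1 = δ0 + p * α := by
  have hpp : Prime (p : ℤ) := Nat.prime_iff_prime_int.1 hp
  obtain ⟨u, v, huv⟩ := (hpp.irreducible.coprime_iff_not_dvd.2 hμ : IsCoprime _ _)
  obtain ⟨z, hz⟩ := h
  refine ⟨v, v * z - u * δ0, ?_, ?_⟩
  · intro hv
    have : (p : ℤ) ∣ 1 := by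
      rw [← huv]
      exact dvd_add (dvd_mul_left _ _) (hv.mul_right _)
    exact hpp.not_unit (isUnit_of_dvd_one this)
  · have h1 : ((u * p + v * μ : ℤ) : 𝓞 K) = 1 := by rw [huv]; norm_num
    push_cast at h1
    linear_combination (v : 𝓞 K) * hz + δ0 * h1

theorem t_DET : S_DET := by
  intro K _ _ θ i hG hi hd τ k p hk hp hpi hpk hpτ δ hOn hN hμ ℓ
  have hpp : Prime (p : ℤ) := Nat.prime_iff_prime_int.1 hp
  haveI : Fact p.Prime := ⟨hp⟩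
  obtain ⟨μ1, hμ1, hd1⟩ := hμ 1
  obtain ⟨μ2, hμ2, hd2⟩ := hμ 2
  obtain ⟨ν1, α1, hν1, hα1⟩ := inv1 hp hμ1 hd1
  obtain ⟨ν2, α2, hν2, hα2⟩ := inv1 hp hμ2 hd2
  obtain ⟨A1, B1, f1⟩ := step hG hd hi hp hpi (hOn 0) (hOn 1) hα1
  obtain ⟨A2, B2, f2⟩ := step hG hd hi hp hpi (hOn 0) (hOn 2) hα2
  obtain ⟨n0, a0, b0, hn0, h0⟩ := hOn 0
  obtain ⟨A0, B0, e0⟩ := z1 hG hd hi hn0 h0
  set lam : 𝓞 K := (k : 𝓞 K) * i * τ * δ 0 ^ (k - 1) with hlam
  have f0 : (p : 𝓞 K) ∣ lam * δ 0 - (((k * A0 : ℤ) : 𝓞 K) + ((k * B0 : ℤ) : 𝓞 K) * θ) := by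
    have e : lam * δ 0 = (k : 𝓞 K) * ((i : 𝓞 K) * (τ * δ 0 ^ k)) := by
      obtain ⟨k', rfl⟩ : ∃ k', k = k' + 1 := ⟨k - 1, by omega⟩
      rw [hlam, Nat.add_sub_cancel, pow_succ]
      ring
    rw [e, e0]
    push_cast
    have : (k : 𝓞 K) * ((A0 : 𝓞 K) + B0 * θ) - ((k : 𝓞 K) * A0 + k * B0 * θ) = 0 := by ring
    rw [this]
    exact dvd_zero _
  have hlamN : ¬ (p : ℤ) ∣ Algebra.norm ℤ lam := by
    rw [hlam, map_mul, map_mul, map_mul, map_pow]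
    intro h
    rcases hpp.dvd_mul.1 h with h | h
    · rcases hpp.dvd_mul.1 h with h | h
      · rcases hpp.dvd_mul.1 h with h | h
        · exact norm_nat hp hpk h
        · exact norm_nat hp hpi h
      · exact hpτ h
    · exact hN 0 (hpp.dvd_of_dvd_pow h)
  -- the kernel vector
  obtain ⟨v, hv0, hv⟩ : ∃ v : Fin 3 → ZMod p, v ≠ 0 ∧
      Matrix.mulVec !![((k * A0 : ℤ) : ZMod p), (A1 : ZMod p), (A2 : ZMod p);
        ((k * B0 : ℤ) : ZMod p), (B1 : ZMod p), (B2 : ZMod p); 0, 0, 0] v = 0 := by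
    rw [Matrix.exists_mulVec_eq_zero_iff, Matrix.det_fin_three]
    simp
  obtain ⟨c, hc⟩ : ∃ c : Fin 3 → ℤ, ∀ j, ((c j : ℤ) : ZMod p) = v j := by
    refine ⟨fun j => ((v j).val : ℤ), fun j => ?_⟩
    simp
  have v0 := congrFun hv 0
  have v1 := congrFun hv 1
  simp only [Matrix.mulVec, dotProduct, Fin.sum_univ_three, Matrix.of_apply, Matrix.cons_val_zero,
    Matrix.cons_val_one, Matrix.cons_val_two, Matrix.cons_val, Pi.zero_apply, ← hc] at v0 v1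
  have g0 : (p : ℤ) ∣ (k * A0) * c 0 + A1 * c 1 + A2 * c 2 := by
    rw [← ZMod.intCast_zmod_eq_zero_iff_dvd]
    push_cast
    push_cast at v0
    exact v0
  have g1 : (p : ℤ) ∣ (k * B0) * c 0 + B1 * c 1 + B2 * c 2 := by
    rw [← ZMod.intCast_zmod_eq_zero_iff_dvd]
    push_cast
    push_cast at v1
    exact v1
  have hx : (p : 𝓞 K) ∣ (c 0 : 𝓞 K) * δ 0 + c 1 * α1 + c 2 * α2 := by
    apply cancel hp hlamN
    obtain ⟨y0, hy0⟩ := f0
    obtain ⟨y1, hy1⟩ := f1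
    obtain ⟨y2, hy2⟩ := f2
    obtain ⟨w0, hw0⟩ := g0
    obtain ⟨w1, hw1⟩ := g1
    have hw0' := congrArg (fun z : ℤ => (z : 𝓞 K)) hw0
    have hw1' := congrArg (fun z : ℤ => (z : 𝓞 K)) hw1
    push_cast at hw0' hw1' hy0
    refine ⟨w0 + w1 * θ + c 0 * y0 + c 1 * y1 + c 2 * y2, ?_⟩
    linear_combination hw0' + θ * hw1' + c 0 * hy0 + c 1 * hy1 + c 2 * hy2
  -- the reduced determinant
  set y : Fin 3 → 𝓞 K := ![δ 0, α1, α2] with hy
  have hL : (p : ℤ) ∣ Matrix.det (Matrix.of fun a b => ℓ a (y b)) := by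
    rw [← ZMod.intCast_zmod_eq_zero_iff_dvd]
    have e1 : ((Matrix.det (Matrix.of fun a b => ℓ a (y b)) : ℤ) : ZMod p) =
        Matrix.det ((Matrix.of fun a b => ℓ a (y b)).map (Int.castRingHom (ZMod p))) := by
      have := RingHom.map_det (Int.castRingHom (ZMod p)) (Matrix.of fun a b => ℓ a (y b))
      simpa using this
    rw [e1, ← Matrix.exists_mulVec_eq_zero_iff]
    refine ⟨v, hv0, ?_⟩
    funext a
    obtain ⟨z, hz⟩ := hx
    have e2 : ℓ a (δ 0) * c 0 + ℓ a α1 * c 1 + ℓ a α2 * c 2 = p * ℓ a z := by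
      have := congrArg (ℓ a) hz
      rw [map_add, map_add] at this
      rw [← zsmul_eq_mul, ← zsmul_eq_mul, ← zsmul_eq_mul, map_zsmul, map_zsmul, map_zsmul,
        ← nsmul_eq_mul, map_nsmul] at this
      simp only [smul_eq_mul, nsmul_eq_mul] at this
      linarith
    have e3 := congrArg (fun z : ℤ => (z : ZMod p)) e2
    push_cast at e3
    rw [CharP.cast_eq_zero, zero_mul] at e3
    simp only [Matrix.mulVec, dotProduct, Fin.sum_univ_three, Matrix.map_apply, Matrix.of_apply,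
      hy, Matrix.cons_val_zero, Matrix.cons_val_one, Matrix.cons_val, Pi.zero_apply, ← hc]
    exact e3
  have k1 : ∀ a, ν1 * ℓ a (δ 1) = ℓ a (δ 0) + p * ℓ a α1 := by
    intro a
    have := congrArg (ℓ a) hα1
    rw [map_add, ← zsmul_eq_mul, map_zsmul, ← nsmul_eq_mul, map_nsmul] at this
    simpa using this
  have k2 : ∀ a, ν2 * ℓ a (δ 2) = ℓ a (δ 0) + p * ℓ a α2 := by
    intro a
    have := congrArg (ℓ a) hα2
    rw [map_add, ← zsmul_eq_mul, map_zsmul, ← nsmul_eq_mul, map_nsmul] at this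
    simpa using this
  have hfin : (ν1 * ν2) * Matrix.det (Matrix.of fun a b => ℓ a (δ b)) =
      (p : ℤ) ^ 2 * Matrix.det (Matrix.of fun a b => ℓ a (y b)) := by
    rw [Matrix.det_fin_three, Matrix.det_fin_three]
    simp only [Matrix.of_apply, hy, Matrix.cons_val_zero, Matrix.cons_val_one, Matrix.cons_val]
    have q1 : ∀ A B C D E F G H J : ℤ, (ν1 * ν2) * (A * E * J - A * F * H - B * D * J +
        B * F * G + C * D * H - C * E * G) =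
        A * (ν1 * E) * (ν2 * J) - A * (ν2 * F) * (ν1 * H) - (ν1 * B) * D * (ν2 * J) +
        (ν1 * B) * (ν2 * F) * G + (ν2 * C) * D * (ν1 * H) - (ν2 * C) * (ν1 * E) * G := by
      intros; ring
    rw [q1, k1, k1, k1, k2, k2, k2]
    ring
  obtain ⟨m, hm⟩ := hL
  rw [hm] at hfin
  have hdvd : (p : ℤ) ^ 3 ∣ (ν1 * ν2) * Matrix.det (Matrix.of fun a b => ℓ a (δ b)) := by
    rw [hfin]
    exact ⟨m, by ring⟩
  have hcop : IsCoprime ((p : ℤ) ^ 3) (ν1 * ν2) := by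
    apply IsCoprime.pow_left
    rw [hpp.irreducible.coprime_iff_not_dvd]
    intro h
    rcases hpp.dvd_mul.1 h with h | h
    · exact hν1 h
    · exact hν2 h
  exact hcop.dvd_of_dvd_mul_left hdvd

end

end Pool.Agent.W924.QD
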